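import Pool.Agent.Run7.h96.IX.Stm2

set_option autoImplicit false

open Finset Filter Topology

/-! # Project IX, piece ONE -/

namespace Run7.h742.IX
open Run7.h96.IX

theorem t_ONE : S_ONE := by
  intro γ v hv hv2 hvγ lam c hc hlam ht
  have h1 : ∀ᶠ n : ℕ in atTop, (v + γ) / 2 < -Real.logb 2 (c n) / n :=
    ht.eventually (lt_mem_nhds (by linarith))
  have h2 : ∀ᶠ n : ℕ in atTop, (2 : ℝ) ≤ (γ - v) / 2 * (n : ℝ) :=
    (tendsto_natCast_atTop_atTop.const_mul_atTop (by linarith : (0 : ℝ) < (γ - v) / 2)).eventually_ge_atTop 2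
  filter_upwards [h1, h2, eventually_ge_atTop 1] with n hn1 hn2 hn3
  have hn : (0 : ℝ) < n := by exact_mod_cast hn3
  have hx : Real.logb 2 (c n) < -((v + γ) / 2 * n) := by
    have := (lt_div_iff₀ hn).1 hn1
    linarith
  have hcn : c n < (2 : ℝ) ^ (-((v + γ) / 2 * n)) := (Real.logb_lt_iff_lt_rpow one_lt_two (hc n)).1 hx
  set X : ℝ := (2 : ℝ) ^ (v * n / 2) with hX
  have hX1 : 1 ≤ X := Real.one_le_rpow one_le_two (by positivity)
  have hm1 : X ≤ (⌈X⌉₊ : ℝ) := Nat.le_ceil X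
  have hm2 : (⌈X⌉₊ : ℝ) < X + 1 := Nat.ceil_lt_add_one (by positivity)
  have hm3 : ⌈X⌉₊ ≤ 2 ^ n := by
    refine Nat.ceil_le.2 ?_
    push_cast
    rw [hX, ← Real.rpow_natCast 2 n]
    refine Real.rpow_le_rpow_of_exponent_le one_le_two ?_
    nlinarith
  have hm4 : 1 ≤ ⌈X⌉₊ := by
    have : (1 : ℝ) ≤ (⌈X⌉₊ : ℝ) := hX1.trans hm1
    exact_mod_cast this
  have hXX : X ^ 2 = (2 : ℝ) ^ (v * n) := by
    rw [hX, ← Real.rpow_natCast, ← Real.rpow_mul (by norm_num)]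
    congr 1
    push_cast
    ring
  obtain ⟨S, -, hS⟩ := Finset.exists_subset_card_eq (s := (univ : Finset (Fin n))) (n := lam n)
    (by simpa using hlam n)
  obtain ⟨A, hA1, -, hA3⟩ := Finset.exists_subsuperset_card_eq (s := ({S} : Finset (Finset (Fin n))))
    (t := univ) (n := ⌈X⌉₊) (subset_univ _) (by simpa using hm4) (by simpa [Fintype.card_finset] using hm3)
  have hSA : S ∈ A := hA1 (mem_singleton_self S)
  refine ⟨⌈X⌉₊, ⟨A, A, hA3, hA3, ?_⟩, ?_⟩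
  · have hcnt : 1 ≤ cnt (lam n) A A := by
      unfold cnt
      refine Finset.card_pos.2 ⟨(S, S), ?_⟩
      rw [mem_filter, mem_product]
      exact ⟨⟨hSA, hSA⟩, by simpa using hS⟩
    have hcnt' : (1 : ℝ) ≤ (cnt (lam n) A A : ℝ) := by exact_mod_cast hcnt
    refine le_trans ?_ hcnt'
    have h5 : (⌈X⌉₊ : ℝ) ≤ 2 * X := by linarith
    calc c n * (⌈X⌉₊ : ℝ) ^ 2 ≤ (2 : ℝ) ^ (-((v + γ) / 2 * n)) * (2 * X) ^ 2 := by
          gcongr
      _ = (2 : ℝ) ^ (-((v + γ) / 2 * n)) * ((2 : ℝ) ^ (2 : ℝ) * (2 : ℝ) ^ (v * n)) := by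
          rw [mul_pow, hXX]
          norm_num
      _ = (2 : ℝ) ^ (-((v + γ) / 2 * n) + (2 + v * n)) := by
          rw [Real.rpow_add (by norm_num), Real.rpow_add (by norm_num)]
      _ ≤ (2 : ℝ) ^ (0 : ℝ) := Real.rpow_le_rpow_of_exponent_le one_le_two (by nlinarith)
      _ = 1 := Real.rpow_zero 2
  · rw [← hXX]
    gcongr

end Run7.h742.IX
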